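import Pool.Agent.Y685.Stm3
import Pool.Agent.Y119.IC.Cusp

/-!
# Growth of solutions of linear differential equations
-/

set_option autoImplicit false

open Filter
open scoped Topology

namespace Pool.Agent.Y119.PG

/-- local description of `S` -/
def Loc (S K : ℂ → ℝ) (Ψ : ℂ → ℂ) (m : ℕ) (t₁ : ℂ) : Prop :=
  ∃ (n : ℕ) (a : Fin n → ℂ → ℂ), (∀ i, AnalyticAt ℂ (a i) t₁) ∧
    (∀ᶠ t in 𝓝 t₁, S t = ∑ i, ‖a i t‖ ^ 2) ∧
    ∑ i, ‖deriv (a i) t₁‖ * ‖a i t₁‖ ≤ K t₁ * (S t₁ + ‖Ψ t₁‖⁻¹ ^ m)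

variable {S K : ℂ → ℝ} {Ψ : ℂ → ℂ} {m : ℕ}

lemma Loc.nonneg {t₁ : ℂ} (h : Loc S K Ψ m t₁) : 0 ≤ S t₁ := by
  obtain ⟨n, a, _, h2, _⟩ := h
  rw [h2.self_of_nhds]
  positivity

lemma Loc.cont {t₁ : ℂ} (h : Loc S K Ψ m t₁) : ContinuousAt S t₁ := by
  obtain ⟨n, a, h1, h2, _⟩ := h
  have h3 : ContinuousAt (fun t => ∑ i, ‖a i t‖ ^ 2) t₁ := by
    refine tendsto_finsetSum _ fun i _ => ?_
    exact ((h1 i).continuousAt.norm.pow 2)
  exact h3.congr (h2.mono fun t ht => ht.symm)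

lemma Loc.der {p e : ℂ} (he : ‖e‖ = 1) {s : ℝ} (h : Loc S K Ψ m (p + s * e)) :
    ∃ d : ℝ, HasDerivAt (fun s : ℝ => S (p + s * e)) d s ∧
      |d| ≤ 2 * (K (p + s * e) * (S (p + s * e) + ‖Ψ (p + s * e)‖⁻¹ ^ m)) := by
  obtain ⟨n, a, h1, h2, h3⟩ := h
  set t₁ : ℂ := p + s * e with ht₁
  have hp : HasDerivAt (fun s : ℝ => p + s * e) e s := by
    have h4 := ((Complex.ofRealCLM.hasDerivAt (x := s)).mul_const e).const_add p
    simpa using h4
  have h5 : ∀ i, HasDerivAt (fun s : ℝ => a i (p + s * e)) (deriv (a i) t₁ * e) s := fun i =>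
    HasDerivAt.comp s (h₂ := a i) (h := fun s : ℝ => p + s * e)
      (h1 i).differentiableAt.hasDerivAt hp
  have h6 : HasDerivAt (fun s : ℝ => ∑ i, ‖a i (p + s * e)‖ ^ 2)
      (∑ i, 2 * inner ℝ (a i t₁) (deriv (a i) t₁ * e)) s :=
    HasDerivAt.fun_sum fun i _ => (h5 i).norm_sq
  refine ⟨_, h6.congr_of_eventuallyEq (hp.continuousAt.eventually h2), ?_⟩
  refine (Finset.abs_sum_le_sum_abs _ _).trans ?_
  have h7 : ∀ i, |2 * inner ℝ (a i t₁) (deriv (a i) t₁ * e)| ≤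
      2 * (‖deriv (a i) t₁‖ * ‖a i t₁‖) := by
    intro i
    rw [abs_mul, abs_two]
    refine mul_le_mul_of_nonneg_left ?_ zero_le_two
    refine (abs_real_inner_le_norm _ _).trans ?_
    rw [norm_mul, he, mul_one, mul_comm]
  refine (Finset.sum_le_sum fun i _ => h7 i).trans ?_
  rw [← Finset.mul_sum]
  exact mul_le_mul_of_nonneg_left h3 zero_le_two

/-- growth along a path -/
theorem path {p e : ℂ} (he : ‖e‖ = 1) {a b : ℝ} (hab : a ≤ b) {K₀ B : ℝ} (hK₀ : 0 ≤ K₀)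
    (hloc : ∀ s ∈ Set.Icc a b, Loc S K Ψ m (p + s * e))
    (hK : ∀ s ∈ Set.Icc a b, K (p + s * e) ≤ K₀)
    (hB : ∀ s ∈ Set.Icc a b, ‖Ψ (p + s * e)‖⁻¹ ^ m ≤ B) :
    S (p + b * e) ≤ Real.exp (2 * K₀ * (b - a)) * (S (p + a * e) + B) := by
  set φ : ℝ → ℝ := fun s => Real.exp (-(2 * K₀ * s)) * (S (p + s * e) + B) with hφ
  have hder : ∀ s ∈ Set.Icc a b, ∃ d, HasDerivAt φ d s ∧ d ≤ 0 := by
    intro s hs
    obtain ⟨d, hd, hd'⟩ := (hloc s hs).der he
    have h1 : HasDerivAt (fun s : ℝ => Real.exp (-(2 * K₀ * s)))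
        (Real.exp (-(2 * K₀ * s)) * (-(2 * K₀ * 1))) s :=
      (((hasDerivAt_id s).const_mul (2 * K₀)).neg).exp
    refine ⟨_, h1.mul (hd.add_const B), ?_⟩
    have h2 : 0 ≤ S (p + s * e) := (hloc s hs).nonneg
    have h3 : 0 ≤ ‖Ψ (p + s * e)‖⁻¹ ^ m := by positivity
    have h4 : K (p + s * e) * (S (p + s * e) + ‖Ψ (p + s * e)‖⁻¹ ^ m) ≤
        K₀ * (S (p + s * e) + B) :=
      mul_le_mul (hK s hs) (by linarith [hB s hs]) (by positivity) hK₀
    have h5 : d ≤ 2 * (K₀ * (S (p + s * e) + B)) := by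
      have := (le_abs_self d).trans hd'
      linarith
    have h6 : 0 < Real.exp (-(2 * K₀ * s)) := Real.exp_pos _
    nlinarith
  have hcont : ContinuousOn φ (Set.Icc a b) := fun s hs => by
    obtain ⟨d, hd, _⟩ := hder s hs
    exact hd.continuousAt.continuousWithinAt
  have hanti : AntitoneOn φ (Set.Icc a b) := by
    refine antitoneOn_of_deriv_nonpos (convex_Icc a b) hcont ?_ ?_
    · intro s hs
      obtain ⟨d, hd, _⟩ := hder s (interior_subset hs)
      exact hd.differentiableAt.differentiableWithinAt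
    · intro s hs
      obtain ⟨d, hd, hd'⟩ := hder s (interior_subset hs)
      rw [hd.deriv]; exact hd'
  have h1 := hanti (Set.left_mem_Icc.2 hab) (Set.right_mem_Icc.2 hab) hab
  simp only [hφ] at h1
  have h2 : Real.exp (2 * K₀ * (b - a)) = Real.exp (2 * K₀ * b) * Real.exp (-(2 * K₀ * a)) := by
    rw [← Real.exp_add]; ring_nf
  have h3 : Real.exp (2 * K₀ * b) * Real.exp (-(2 * K₀ * b)) = 1 := by
    rw [← Real.exp_add]; simp
  have hB0 : 0 ≤ B := le_trans (by positivity) (hB a (Set.left_mem_Icc.2 hab))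
  have h4 := mul_le_mul_of_nonneg_left h1 (Real.exp_pos (2 * K₀ * b)).le
  rw [← mul_assoc, h3, one_mul, ← mul_assoc, ← h2] at h4
  linarith

theorem task_G : Pool.Agent.Y685.S_G := by
  intro Ψ hΨd hΨp hΨb hΨne S K m hSp hKc hKb hloc'
  have hloc : ∀ t₁ : ℂ, 0 < t₁.im → Ψ t₁ ≠ 0 → Loc S K Ψ m t₁ := hloc'
  have hopen : IsOpen {t : ℂ | 0 < t.im} := isOpen_lt continuous_const Complex.continuous_im
  constructor
  · intro t₁ ht₁ h0
    have han : AnalyticAt ℂ Ψ t₁ := by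
      rw [Complex.analyticAt_iff_eventually_differentiableAt]
      filter_upwards [hopen.mem_nhds ht₁] with t ht
      exact hΨd t ht
    have hnz : ∀ᶠ z in 𝓝[≠] t₁, Ψ z ≠ 0 := by
      rcases han.eventually_eq_zero_or_eventually_ne_zero with h | h
      · exfalso
        obtain ⟨t₂, ht₂, hne⟩ := hΨne
        have h1 : AnalyticOnNhd ℂ Ψ {t : ℂ | 0 < t.im} :=
          DifferentiableOn.analyticOnNhd (fun t ht => (hΨd t ht).differentiableWithinAt) hopen
        exact hne (h1.eqOn_zero_of_preconnected_of_eventuallyEq_zero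
          (convex_halfSpace_im_gt 0).isPreconnected ht₁ h ht₂)
      · exact h
    obtain ⟨n, g, hg, hg0, hge⟩ := han.exists_eventuallyEq_pow_smul_nonzero_iff.2 (by
      intro hcon
      obtain ⟨z, hz1, hz2⟩ := ((eventually_nhdsWithin_of_eventually_nhds hcon).and hnz).exists
      exact hz2 hz1)
    have hg1 : ∀ᶠ z in 𝓝 t₁, ‖g t₁‖ / 2 < ‖g z‖ :=
      hg.continuousAt.norm.eventually (lt_mem_nhds (by
        have := norm_pos_iff.2 hg0
        linarith))
    -- a radius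
    have hall : ∀ᶠ z in 𝓝 t₁, 0 < z.im ∧ ‖g t₁‖ / 2 < ‖g z‖ ∧ Ψ z = (z - t₁) ^ n • g z ∧
        (z ≠ t₁ → Ψ z ≠ 0) := by
      filter_upwards [hopen.mem_nhds ht₁, hg1, hge, eventually_nhdsWithin_iff.1 hnz]
        with z a1 a2 a3 a4
      exact ⟨a1, a2, a3, a4⟩
    obtain ⟨r', hr', hball'⟩ := Metric.nhds_basis_closedBall.mem_iff.1 hall
    set r : ℝ := min r' 1 with hr
    have hr0 : 0 < r := lt_min hr' one_pos
    have hr1 : r ≤ 1 := min_le_right _ _
    have hball : ∀ z ∈ Metric.closedBall t₁ r, 0 < z.im ∧ ‖g t₁‖ / 2 < ‖g z‖ ∧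
        Ψ z = (z - t₁) ^ n • g z ∧ (z ≠ t₁ → Ψ z ≠ 0) := fun z hz =>
      hball' (Metric.closedBall_subset_closedBall (min_le_left _ _) hz)
    -- bounds
    obtain ⟨K₁, hK₁⟩ := (isCompact_closedBall t₁ r).exists_bound_of_continuousOn
      (f := K) fun z hz => (hKc z (hball z hz).1).continuousWithinAt
    set K₀ : ℝ := max K₁ 0 with hK₀
    have hSc : ∀ z ∈ Metric.sphere t₁ r, ContinuousAt S z := fun z hz =>
      (hloc z (hball z (Metric.sphere_subset_closedBall hz)).1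
        ((hball z (Metric.sphere_subset_closedBall hz)).2.2.2
          (Metric.ne_of_mem_sphere hz hr0.ne'))).cont
    obtain ⟨S₁, hS₁⟩ := (isCompact_sphere t₁ r).exists_bound_of_continuousOn
      (f := S) fun z hz => (hSc z hz).continuousWithinAt
    set c₀ : ℝ := ‖g t₁‖ / 2 with hc₀
    have hc₀0 : 0 < c₀ := half_pos (norm_pos_iff.2 hg0)
    refine ⟨Real.exp (2 * K₀) * (|S₁| + c₀⁻¹ ^ m), n * m, ?_⟩
    rw [eventually_nhdsWithin_iff]
    filter_upwards [Metric.ball_mem_nhds t₁ hr0] with t htb htne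
    have htne' : t ≠ t₁ := htne
    set ρ : ℝ := ‖t - t₁‖ with hρ
    have hρ0 : 0 < ρ := norm_pos_iff.2 (sub_ne_zero.2 htne')
    have hρr : ρ ≤ r := by
      rw [Metric.mem_ball, dist_eq_norm] at htb
      exact htb.le
    have hρ1 : ρ ≤ 1 := hρr.trans hr1
    -- direction
    set e : ℂ := -((t - t₁) / ρ) with he
    have hρc : (ρ : ℂ) ≠ 0 := by exact_mod_cast hρ0.ne'
    have he1 : ‖e‖ = 1 := by
      rw [he, norm_neg, norm_div, Complex.norm_real, norm_norm, ← hρ, div_self hρ0.ne']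
    -- the path `t₁ + (r + ρ - s)(-e)`, `s` from `ρ` to `r`
    set p : ℂ := t₁ - ((r + ρ : ℝ) : ℂ) * e with hp
    have hpt : ∀ s : ℝ, p + s * e - t₁ = -(((r + ρ - s : ℝ) : ℂ) * e) := by
      intro s; rw [hp]; push_cast; ring
    have hnorm : ∀ s ∈ Set.Icc ρ r, ‖p + s * e - t₁‖ = r + ρ - s := by
      intro s hs
      rw [hpt, norm_neg, norm_mul, he1, mul_one, Complex.norm_real, Real.norm_eq_abs,
        abs_of_nonneg (by linarith [hs.2])]
    have hin : ∀ s ∈ Set.Icc ρ r, p + s * e ∈ Metric.closedBall t₁ r ∧ p + s * e ≠ t₁ := by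
      intro s hs
      constructor
      · rw [Metric.mem_closedBall, dist_eq_norm, hnorm s hs]; linarith [hs.1]
      · intro h
        have := hnorm s hs
        rw [h, sub_self, norm_zero] at this
        linarith [hs.2]
    have hend : p + r * e = t := by
      have h1 := hpt r
      have h2 : t - t₁ = -((ρ : ℂ) * e) := by rw [he]; field_simp
      have h3 : ((r + ρ - r : ℝ) : ℂ) = (ρ : ℂ) := by push_cast; ring
      rw [h3, ← h2] at h1
      exact sub_left_injective h1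
    have hstart : p + ρ * e ∈ Metric.sphere t₁ r := by
      rw [Metric.mem_sphere, dist_eq_norm, hnorm ρ ⟨le_rfl, hρr⟩]; ring
    have hmain := path (S := S) (K := K) (Ψ := Ψ) (m := m) (p := p) he1 hρr (K₀ := K₀)
      (B := (c₀ * ρ ^ n)⁻¹ ^ m) (le_max_right _ _)
      (fun s hs => hloc _ (hball _ (hin s hs).1).1 ((hball _ (hin s hs).1).2.2.2 (hin s hs).2))
      (fun s hs => by
        have := hK₁ _ (hin s hs).1
        rw [Real.norm_eq_abs] at this
        exact ((le_abs_self _).trans this).trans (le_max_left _ _))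
      (fun s hs => by
        obtain ⟨b1, b2, b3, b4⟩ := hball _ (hin s hs).1
        refine pow_le_pow_left₀ (by positivity) ?_ m
        apply inv_anti₀ (by positivity)
        rw [b3, norm_smul, norm_pow, hnorm s hs, mul_comm]
        have h5 : ρ ^ n ≤ (r + ρ - s) ^ n := pow_le_pow_left₀ hρ0.le (by linarith [hs.2]) n
        exact mul_le_mul h5 b2.le hc₀0.le (pow_nonneg (by linarith [hs.2]) n))
    rw [hend] at hmain
    have hSs := hS₁ _ hstart
    rw [Real.norm_eq_abs] at hSs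
    have hS2 : S (p + ρ * e) ≤ |S₁| := (le_abs_self _).trans (hSs.trans (le_abs_self _))
    have hK00 : 0 ≤ K₀ := le_max_right _ _
    have hρnm : 1 ≤ (ρ ^ (n * m))⁻¹ := (one_le_inv₀ (by positivity)).2 (pow_le_one₀ hρ0.le hρ1)
    have hB : (c₀ * ρ ^ n)⁻¹ ^ m = c₀⁻¹ ^ m * (ρ ^ (n * m))⁻¹ := by
      rw [mul_inv, mul_pow, pow_mul, inv_pow (ρ ^ n)]
    rw [hB] at hmain
    have hz : ρ ^ (-((n * m : ℕ) : ℤ)) = (ρ ^ (n * m))⁻¹ := by rw [zpow_neg, zpow_natCast]
    have hc : ((n : ℤ) * (m : ℤ)) = ((n * m : ℕ) : ℤ) := by push_cast; ring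
    rw [show ((n * m : ℕ) : ℤ) = ((n * m : ℕ) : ℤ) from rfl, hz]
    have h9 : Real.exp (2 * K₀ * (r - ρ)) ≤ Real.exp (2 * K₀) := by
      apply Real.exp_le_exp.2
      nlinarith
    have h10 : 0 ≤ c₀⁻¹ ^ m := by positivity
    calc S t ≤ Real.exp (2 * K₀ * (r - ρ)) * (S (p + ρ * e) + c₀⁻¹ ^ m * (ρ ^ (n * m))⁻¹) := hmain
      _ ≤ Real.exp (2 * K₀ * (r - ρ)) * (|S₁| + c₀⁻¹ ^ m * (ρ ^ (n * m))⁻¹) := by gcongr
      _ ≤ Real.exp (2 * K₀) * (|S₁| + c₀⁻¹ ^ m * (ρ ^ (n * m))⁻¹) := by gcongr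
      _ ≤ Real.exp (2 * K₀) * (|S₁| * (ρ ^ (n * m))⁻¹ + c₀⁻¹ ^ m * (ρ ^ (n * m))⁻¹) := by
          gcongr
          exact le_mul_of_one_le_right (abs_nonneg _) hρnm
      _ = Real.exp (2 * K₀) * (|S₁| + c₀⁻¹ ^ m) * (ρ ^ (n * m))⁻¹ := by ring
  · obtain ⟨c₀, n, T₀, hc₀, hlow⟩ := Pool.Agent.Y119.IC.task_C2 Ψ hΨd hΨp hΨb hΨne
    obtain ⟨k, hk⟩ := hKb
    set T₁ : ℝ := max T₀ 1 with hT₁
    have hT₁1 : 1 ≤ T₁ := le_max_right _ _
    set K₀ : ℝ := max k 0 with hK₀
    have hK00 : 0 ≤ K₀ := le_max_right _ _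
    have hne : ∀ t : ℂ, T₁ ≤ t.im → Ψ t ≠ 0 := by
      intro t ht h0
      have := hlow t ((le_max_left _ _).trans ht)
      rw [h0, norm_zero] at this
      have h2 := mul_pos hc₀ (Real.exp_pos (-(n * t.im)))
      linarith
    have hloc2 : ∀ t : ℂ, T₁ ≤ t.im → Loc S K Ψ m t := fun t ht =>
      hloc t (by linarith) (hne t ht)
    -- bound on the segment
    obtain ⟨S₁, hS₁⟩ := (isCompact_Icc (a := (0 : ℝ)) (b := 1)).exists_bound_of_continuousOn
      (f := fun x : ℝ => S ((x : ℂ) + T₁ * Complex.I)) (by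
        intro x _
        have h1 : ContinuousAt (fun x : ℝ => (x : ℂ) + T₁ * Complex.I) x := by fun_prop
        exact (ContinuousAt.comp (g := S) (f := fun x : ℝ => (x : ℂ) + T₁ * Complex.I)
          (hloc2 _ (by simp)).cont h1).continuousWithinAt)
    have hSz : ∀ (z : ℤ) (t : ℂ), 0 < t.im → S (t + z) = S t := by
      have hnat : ∀ (j : ℕ) (t : ℂ), 0 < t.im → S (t + j) = S t := by
        intro j
        induction j with
        | zero => intro t _; simp
        | succ j ih =>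
          intro t ht
          have h1 : (t + ((j + 1 : ℕ) : ℂ)) = (t + j) + 1 := by push_cast; ring
          rw [h1, hSp _ (by simpa using ht), ih t ht]
      intro z t ht
      rcases Int.eq_nat_or_neg z with ⟨j, rfl | rfl⟩
      · simpa using hnat j t ht
      · have h1 := hnat j (t - j) (by simpa using ht)
        rw [sub_add_cancel] at h1
        rw [h1]; congr 1; push_cast; ring
    have hseg : ∀ t : ℂ, t.im = T₁ → S t ≤ |S₁| := by
      intro t ht
      have h1 := hSz (-⌊t.re⌋) t (by rw [ht]; linarith)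
      have h2 : t + ((-⌊t.re⌋ : ℤ) : ℂ) = ((Int.fract t.re : ℝ) : ℂ) + T₁ * Complex.I := by
        apply Complex.ext
        · have h3 : (t + ((-⌊t.re⌋ : ℤ) : ℂ)).re = Int.fract t.re := by
            rw [Complex.add_re, Complex.intCast_re, Int.cast_neg, ← sub_eq_add_neg,
              Int.self_sub_floor]
          rw [h3]
          simp
        · simp [ht]
      rw [← h1, h2]
      have h3 := hS₁ (Int.fract t.re) ⟨Int.fract_nonneg _, (Int.fract_lt_one _).le⟩
      rw [Real.norm_eq_abs] at h3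
      exact (le_abs_self _).trans (h3.trans (le_abs_self _))
    -- growth
    have hgrow : ∀ t : ℂ, T₁ ≤ t.im →
        S t ≤ Real.exp (2 * K₀ * t.im) * (|S₁| + c₀⁻¹ ^ m * Real.exp (|n| * m * t.im)) := by
      intro t ht
      have hI : ‖Complex.I‖ = 1 := Complex.norm_I
      have hpt : ∀ s : ℝ, ((t.re : ℂ) + s * Complex.I).im = s := by intro s; simp
      have hmain := path (S := S) (K := K) (Ψ := Ψ) (m := m) (p := (t.re : ℂ)) hI ht (K₀ := K₀)
        (B := c₀⁻¹ ^ m * Real.exp (|n| * m * t.im)) hK00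
        (fun s hs => hloc2 _ (by rw [hpt]; exact hs.1))
        (fun s hs => (hk _ (by rw [hpt]; exact hT₁1.trans hs.1)).trans (le_max_left _ _))
        (fun s hs => by
          have h1 := hlow ((t.re : ℂ) + s * Complex.I) (by
            rw [hpt]; exact (le_max_left _ _).trans hs.1)
          rw [hpt] at h1
          have hs0 : 0 ≤ s := by linarith [hs.1]
          have h2 : c₀ * Real.exp (-(|n| * t.im)) ≤ ‖Ψ ((t.re : ℂ) + s * Complex.I)‖ := by
            refine le_trans (mul_le_mul_of_nonneg_left (Real.exp_le_exp.2 ?_) hc₀.le) h1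
            have h3 : n * s ≤ |n| * s := mul_le_mul_of_nonneg_right (le_abs_self n) hs0
            have h4 : |n| * s ≤ |n| * t.im := mul_le_mul_of_nonneg_left hs.2 (abs_nonneg n)
            linarith
          have h5 : ‖Ψ ((t.re : ℂ) + s * Complex.I)‖⁻¹ ≤ c₀⁻¹ * Real.exp (|n| * t.im) := by
            have h6 := inv_anti₀ (by positivity) h2
            rw [mul_inv, ← Real.exp_neg, neg_neg] at h6
            exact h6
          refine (pow_le_pow_left₀ (by positivity) h5 m).trans (le_of_eq ?_)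
          rw [mul_pow, ← Real.exp_nat_mul]
          ring_nf)
      have hend : (t.re : ℂ) + t.im * Complex.I = t := Complex.re_add_im t
      rw [hend] at hmain
      have h1 := hseg ((t.re : ℂ) + T₁ * Complex.I) (hpt T₁)
      calc S t ≤ _ := hmain
        _ ≤ Real.exp (2 * K₀ * (t.im - T₁)) * (|S₁| + c₀⁻¹ ^ m * Real.exp (|n| * m * t.im)) := by
            gcongr
        _ ≤ _ := by
            gcongr
            nlinarith
    set c : ℝ := 2 * K₀ + |n| * m + (|S₁| + c₀⁻¹ ^ m) with hc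
    refine ⟨c, T₁, fun t ht => ?_⟩
    refine (hgrow t ht).trans ?_
    have ht1 : 1 ≤ t.im := hT₁1.trans ht
    have h1 : |S₁| + c₀⁻¹ ^ m * Real.exp (|n| * m * t.im) ≤
        (|S₁| + c₀⁻¹ ^ m) * Real.exp (|n| * m * t.im) := by
      have h2 : 1 ≤ Real.exp (|n| * m * t.im) := Real.one_le_exp (by positivity)
      have h3 : |S₁| ≤ |S₁| * Real.exp (|n| * m * t.im) := le_mul_of_one_le_right (abs_nonneg _) h2
      rw [add_mul]; linarith
    have h4 : (|S₁| + c₀⁻¹ ^ m) ≤ Real.exp ((|S₁| + c₀⁻¹ ^ m) * t.im) := by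
      have h5 : (|S₁| + c₀⁻¹ ^ m) ≤ (|S₁| + c₀⁻¹ ^ m) * t.im :=
        le_mul_of_one_le_right (by positivity) ht1
      have h6 := Real.add_one_le_exp ((|S₁| + c₀⁻¹ ^ m) * t.im)
      linarith
    calc Real.exp (2 * K₀ * t.im) * (|S₁| + c₀⁻¹ ^ m * Real.exp (|n| * m * t.im))
        ≤ Real.exp (2 * K₀ * t.im) * ((|S₁| + c₀⁻¹ ^ m) * Real.exp (|n| * m * t.im)) := by gcongr
      _ ≤ Real.exp (2 * K₀ * t.im) * (Real.exp ((|S₁| + c₀⁻¹ ^ m) * t.im) *
          Real.exp (|n| * m * t.im)) := by gcongr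
      _ = Real.exp (c * t.im) := by
          rw [← Real.exp_add, ← Real.exp_add]
          congr 1
          rw [hc]; ring

end Pool.Agent.Y119.PG
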