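import Mathlib

/-!
# Integral primitive elements with denominators cleared
-/

set_option autoImplicit false

open Polynomial

namespace Pool.Agent.Y119.PG

theorem prim {A E : Type} [CommRing A] [IsDomain A] [Field E] [CharZero E] [Algebra A E]
    [FaithfulSMul A E] (Z : Set E) (hZ : Z.Finite) (halg : ∀ z ∈ Z, IsAlgebraic A z) :
    ∃ θ : E, IsIntegral A θ ∧
      (∀ z ∈ Z, ∃ b : A, b ≠ 0 ∧ ∃ N : A[X], algebraMap A E b * z = aeval θ N) ∧
      (∀ N : A[X], aeval θ N ≠ 0 → ∃ b : A, b ≠ 0 ∧ ∃ N' : A[X],
        algebraMap A E b = aeval θ N * aeval θ N') := by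
  classical
  let K := FractionRing A
  let _ : Algebra K E := FractionRing.liftAlgebra A E
  have : IsScalarTower A K E := FractionRing.isScalarTower_liftAlgebra A E
  have : CharZero K := (algebraMap K E).charZero
  have hinj : Function.Injective (algebraMap A E) := FaithfulSMul.algebraMap_injective A E
  have halgK : ∀ z ∈ Z, IsIntegral K z := fun z hz =>
    ((IsFractionRing.isAlgebraic_iff A K E).1 (halg z hz)).isIntegral
  have : Finite Z := hZ
  have : FiniteDimensional K (IntermediateField.adjoin K Z) :=
    IntermediateField.finiteDimensional_adjoin halgK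
  obtain ⟨α, hα⟩ := Field.exists_primitive_element K (IntermediateField.adjoin K Z)
  have hαint : IsIntegral K α := IsIntegral.of_finite K α
  have hrep : ∀ z ∈ IntermediateField.adjoin K Z, ∃ P : K[X], aeval (α : E) P = z := by
    intro z hz
    have h1 : (⟨z, hz⟩ : IntermediateField.adjoin K Z) ∈ IntermediateField.adjoin K {α} := by rw [hα]; trivial
    rw [← IntermediateField.mem_toSubalgebra,
      IntermediateField.adjoin_simple_toSubalgebra_of_isAlgebraic hαint.isAlgebraic,
      Algebra.adjoin_singleton_eq_range_aeval] at h1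
    obtain ⟨P, hP⟩ := h1
    refine ⟨P, ?_⟩
    have h2 := congrArg (fun x : IntermediateField.adjoin K Z => (x : E)) hP
    simp only at h2
    rw [← h2]
    exact Polynomial.aeval_algHom_apply (IntermediateField.adjoin K Z).val α P
  have hαA : IsAlgebraic A (α : E) := by
    rw [IsFractionRing.isAlgebraic_iff A K E]
    exact (hαint.map (IntermediateField.adjoin K Z).val).isAlgebraic
  obtain ⟨y, hy0, hyint⟩ := hαA.exists_integral_multiple
  have hyE : algebraMap A E y ≠ 0 := by
    rw [Ne, map_eq_zero_iff _ hinj]; exact hy0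
  have hyK : algebraMap A K y ≠ 0 := by
    rw [Ne, map_eq_zero_iff _ (IsFractionRing.injective A K)]; exact hy0
  set θ : E := y • (α : E) with hθ
  have hclear : ∀ z ∈ IntermediateField.adjoin K Z, ∃ b : A, b ≠ 0 ∧ ∃ N : A[X],
      algebraMap A E b * z = aeval θ N := by
    intro z hz
    obtain ⟨P, hP⟩ := hrep z hz
    set P' : K[X] := P.comp (C (algebraMap A K y)⁻¹ * X) with hP'
    have h1 : aeval θ P' = z := by
      rw [hP', aeval_comp, map_mul, aeval_C, aeval_X, map_inv₀,
        ← IsScalarTower.algebraMap_apply A K E, hθ, Algebra.smul_def, inv_mul_cancel_left₀ hyE, hP]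
    obtain ⟨b, hbm, hb⟩ := IsLocalization.integerNormalization_spec (nonZeroDivisors A) P'
    refine ⟨b, nonZeroDivisors.ne_zero hbm,
      IsLocalization.integerNormalization (nonZeroDivisors A) P', ?_⟩
    have h2 : aeval θ ((IsLocalization.integerNormalization (nonZeroDivisors A) P').map
        (algebraMap A K)) = aeval θ (IsLocalization.integerNormalization (nonZeroDivisors A) P') :=
      aeval_map_algebraMap K θ _
    rw [← h2, hb]
    have h3 : (b • P' : K[X]) = algebraMap A K b • P' := by
      rw [algebraMap_smul]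
    rw [h3, map_smul, h1, Algebra.smul_def, ← IsScalarTower.algebraMap_apply A K E]
  refine ⟨θ, hyint, fun z hz => hclear z (IntermediateField.subset_adjoin K Z hz), ?_⟩
  intro N hN
  have hθF : θ ∈ IntermediateField.adjoin K Z := by
    rw [hθ, Algebra.smul_def, IsScalarTower.algebraMap_apply A K E]
    exact mul_mem ((IntermediateField.adjoin K Z).algebraMap_mem _) α.2
  have hNF : aeval θ N ∈ IntermediateField.adjoin K Z := by
    rw [← aeval_map_algebraMap K θ N]
    have h4 := Polynomial.aeval_algHom_apply (IntermediateField.adjoin K Z).val ⟨θ, hθF⟩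
      (N.map (algebraMap A K))
    have h5 : (IntermediateField.adjoin K Z).val ⟨θ, hθF⟩ = θ := rfl
    rw [h5] at h4
    rw [h4]
    exact Subtype.prop _
  obtain ⟨b, hb, N', hN'⟩ := hclear _ (inv_mem hNF)
  refine ⟨b, hb, N', ?_⟩
  rw [← hN']
  field_simp

end Pool.Agent.Y119.PG
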